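import Mathlib

namespace Pool.Agent.H.MP_037a8f_lc

/-- Binary trees with natural number keys. -/
inductive BT
  | nil : BT
  | node : BT → ℕ → BT → BT

open BT

/-- The keys in symmetric order. -/
def keys : BT → List ℕ
  | nil => []
  | node l a r => keys l ++ a :: keys r

/-- A binary search tree on the keys `1, …, n`. -/
def IsBST (n : ℕ) (T : BT) : Prop := keys T = List.range' 1 n

/-- Depth of the key `x` (the root has depth `0`). -/
def depth (x : ℕ) : BT → ℕ
  | nil => 0
  | node l a r => if x < a then depth x l + 1 else if a < x then depth x r + 1 else 0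

/-- `wpl f 1 T` is the weighted path length: the sum over the keys `v` of `f v` times the number of
nodes on the path from the root to `v`. -/
def wpl (f : ℕ → ℕ) : ℕ → BT → ℕ
  | _, nil => 0
  | d, node l a r => wpl f (d + 1) l + f a * d + wpl f (d + 1) r

/-- Rotate the key `x` over its parent (no change if `x` is the root). -/
def rotUp (x : ℕ) : BT → BT
  | nil => nil
  | node l a r =>
    if x < a then
      match l with
      | nil => node nil a r
      | node l₁ b l₂ => if b = x then node l₁ b (node l₂ a r) else node (rotUp x (node l₁ b l₂)) a r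
    else if a < x then
      match r with
      | nil => node l a nil
      | node r₁ b r₂ => if b = x then node (node l a r₁) b r₂ else node l a (rotUp x (node r₁ b r₂))
    else node l a r

/-- Total cost of an online algorithm whose restructuring after an access to `x` is
`step f x T` (new tree, number of rotations), where `f` counts the accesses so far, the current one
included. `past` lists the earlier accesses. -/
def run (step : (ℕ → ℕ) → ℕ → BT → BT × ℕ) : BT → List ℕ → List ℕ → ℕ
  | _, _, [] => 0
  | T, past, x :: σ =>
    depth x T + 1 + (step (fun i => (x :: past).count i) x T).2 +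
      run step (step (fun i => (x :: past).count i) x T).1 (x :: past) σ

/-- The restructuring does nothing if rotating `x` over its parent does not strictly decrease the
weighted path length. -/
def Lazy (step : (ℕ → ℕ) → ℕ → BT → BT × ℕ) : Prop :=
  ∀ f x T, ¬ wpl f 1 (rotUp x T) < wpl f 1 T → step f x T = (T, 0)

/-- Cost of the fixed tree `S` on `σ`. -/
def static (S : BT) (σ : List ℕ) : ℕ := (σ.map fun x => depth x S + 1).sum

def Z : Bool → ℕ → ℕ → BT
  | _, _, 0 => nil
  | true, lo, n + 1 => node nil lo (Z false (lo + 1) n)
  | false, lo, n + 1 => node (Z true lo n) (lo + n) nil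

def td : Bool → ℕ → ℕ → List ℕ
  | _, _, 0 => []
  | true, lo, n + 1 => lo :: td false (lo + 1) n
  | false, lo, n + 1 => (lo + n) :: td true lo n

lemma keys_Z (b lo n) : keys (Z b lo n) = List.range' lo n := by
  induction n generalizing b lo with
  | zero => simp [Z, keys]
  | succ n ih =>
    cases b
    · simp [Z, keys, ih, List.range'_concat]
    · simp [Z, keys, ih, List.range'_succ]

lemma mem_td {b lo n x} (h : x ∈ td b lo n) : lo ≤ x ∧ x < lo + n := by
  induction n generalizing b lo with
  | zero => simp [td] at h
  | succ n ih =>
    cases b <;> simp only [td, List.mem_cons] at h <;> rcases h with rfl | h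
    · omega
    · have := ih h; omega
    · omega
    · have := ih h; omega

lemma nodup_td (b lo n) : (td b lo n).Nodup := by
  induction n generalizing b lo with
  | zero => simp [td]
  | succ n ih =>
    cases b <;> simp only [td, List.nodup_cons] <;> refine ⟨fun h => ?_, ih _ _⟩ <;>
      have := mem_td h <;> omega

lemma length_td (b lo n) : (td b lo n).length = n := by
  induction n generalizing b lo with
  | zero => simp [td]
  | succ n ih => cases b <;> simp [td, ih]

lemma static_Z (b lo n) : 2 * static (Z b lo n) (td b lo n) = n * (n + 1) := by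
  induction n generalizing b lo with
  | zero => simp [td, static]
  | succ n ih =>
    have key : ∀ (T T' : BT) (l : List ℕ), (∀ x ∈ l, depth x T = depth x T' + 1) →
        static T l = static T' l + l.length := by
      intro T T' l h
      induction l with
      | nil => simp [static]
      | cons y l ihl =>
        have := ihl fun x hx => h x (List.mem_cons_of_mem _ hx)
        simp only [static, List.map_cons, List.sum_cons, List.length_cons] at this ⊢
        rw [h y List.mem_cons_self]; omega
    cases b
    · have h1 := key (Z false lo (n + 1)) (Z true lo n) (td true lo n) fun x hx => by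
        simp [Z, depth, (mem_td hx).2]
      have h2 := ih true lo
      simp only [static, td, List.map_cons, List.sum_cons, length_td] at h1 h2 ⊢
      rw [h1]; simp only [Z, depth, lt_irrefl, if_false]; nlinarith
    · have h1 := key (Z true lo (n + 1)) (Z false (lo + 1) n) (td false (lo + 1) n) fun x hx => by
        have := mem_td hx
        simp [Z, depth, show ¬ x < lo by omega, show lo < x by omega]
      have h2 := ih false (lo + 1)
      simp only [static, td, List.map_cons, List.sum_cons, length_td] at h1 h2 ⊢
      rw [h1]; simp only [Z, depth, lt_irrefl, if_false]; nlinarith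

lemma norot (f : ℕ → ℕ) (x b lo n d) (h : (td b lo n).Pairwise fun u v => f v ≤ f u) :
    wpl f d (Z b lo n) ≤ wpl f d (rotUp x (Z b lo n)) := by
  induction n generalizing b lo d with
  | zero => simp [Z, rotUp]
  | succ n ih =>
    cases b
    · simp only [td, List.pairwise_cons] at h
      have := ih true lo (d + 1) h.2
      cases n with
      | zero => simp only [Z, rotUp]; split_ifs <;> exact le_rfl
      | succ n =>
        have h1 := h.1 lo (by simp [td])
        simp only [Z] at this ⊢
        rw [rotUp]
        split_ifs
        · simp only [wpl]; nlinarith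
        · simp only [wpl] at this ⊢; omega
        · exact le_rfl
        · exact le_rfl
    · simp only [td, List.pairwise_cons] at h
      have := ih false (lo + 1) (d + 1) h.2
      cases n with
      | zero => simp only [Z, rotUp]; split_ifs <;> exact le_rfl
      | succ n =>
        have h1 := h.1 (lo + 1 + n) (by simp [td])
        simp only [Z] at this ⊢
        rw [rotUp]
        split_ifs
        · exact le_rfl
        · simp only [wpl]; nlinarith
        · simp only [wpl] at this ⊢; omega
        · exact le_rfl

def Good (n : ℕ) (past : List ℕ) : Prop :=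
  (td true 1 n).Pairwise fun u v => past.count v ≤ past.count u

lemma run_eq {step} (hs : Lazy step) (n : ℕ) (σ past : List ℕ)
    (h : ∀ pre suf, σ = pre ++ suf → Good n (pre.reverse ++ past)) :
    run step (Z true 1 n) past σ = static (Z true 1 n) σ := by
  induction σ generalizing past with
  | nil => rfl
  | cons x σ ih =>
    have h1 : Good n (x :: past) := by simpa using h [x] σ rfl
    have h2 := hs (fun i => (x :: past).count i) x _ (not_lt.2 (norot _ x true 1 n 1 h1))
    simp only [run, h2, static, List.map_cons, List.sum_cons, add_zero]
    rw [ih (x :: past) fun pre suf e => by simpa using h (x :: pre) suf (by simp [e])]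
    rfl

def rep (n K : ℕ) : List ℕ := (List.replicate K (td true 1 n)).flatten

lemma good_rep (n K q : ℕ) (past : List ℕ) (hq : ∀ u ∈ td true 1 n, past.count u = q) :
    ∀ pre suf, rep n K = pre ++ suf → Good n (pre.reverse ++ past) := by
  have base : ∀ (q : ℕ) (past : List ℕ), (∀ u ∈ td true 1 n, past.count u = q) →
      ∀ pre suf, td true 1 n = pre ++ suf → Good n (pre.reverse ++ past) := by
    intro q past hq pre suf e
    have hn := nodup_td true 1 n
    unfold Good
    rw [e] at hn hq ⊢
    rw [List.nodup_append] at hn
    have c1 : ∀ u ∈ pre, (pre.reverse ++ past).count u = q + 1 := fun u hu => by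
      rw [List.count_append, List.count_reverse, List.count_eq_one_of_mem hn.1 hu,
        hq u (by simp [hu]), add_comm]
    have c2 : ∀ u ∈ suf, (pre.reverse ++ past).count u = q := fun u hu => by
      rw [List.count_append, List.count_reverse,
        List.count_eq_zero_of_not_mem (fun h => hn.2.2 u h u hu rfl), hq u (by simp [hu]), zero_add]
    rw [List.pairwise_append]
    refine ⟨List.pairwise_of_forall_mem_list fun a ha b hb => by rw [c1 a ha, c1 b hb],
      List.pairwise_of_forall_mem_list fun a ha b hb => by rw [c2 a ha, c2 b hb],
      fun a ha b hb => by rw [c1 a ha, c2 b hb]; omega⟩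
  induction K generalizing past q with
  | zero =>
    intro pre suf e
    have : pre = [] := by
      simp only [rep, List.replicate_zero, List.flatten_nil] at e
      exact (List.append_eq_nil_iff.1 e.symm).1
    subst this
    exact base q past hq [] _ rfl
  | succ K ih =>
    intro pre suf e
    simp only [rep, List.replicate_succ, List.flatten_cons] at e
    rcases List.append_eq_append_iff.1 e with ⟨a, h1, h2⟩ | ⟨a, h1, _⟩
    · have := ih (q + 1) ((td true 1 n).reverse ++ past) (fun u hu => by
        rw [List.count_append, List.count_reverse,
          List.count_eq_one_of_mem (nodup_td true 1 n) hu, hq u hu, add_comm]) a suf h2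
      simpa [h1] using this
    · exact base q past hq pre a h1

lemma static_rep (S : BT) (n K : ℕ) : static S (rep n K) = K * static S (td true 1 n) := by
  induction K with
  | zero => simp [rep, static]
  | succ K ih =>
    simp only [rep, static, List.replicate_succ, List.flatten_cons, List.map_append,
      List.sum_append] at ih ⊢
    rw [ih]; ring

lemma mem_rep {n K x : ℕ} (h : x ∈ rep n K) : 1 ≤ x ∧ x ≤ n := by
  simp only [rep, List.mem_flatten, List.mem_replicate] at h
  obtain ⟨l, ⟨_, rfl⟩, h⟩ := h
  have := mem_td h
  omega

lemma run_rep {step} (hs : Lazy step) (n K : ℕ) :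
    2 * run step (Z true 1 n) [] (rep n K) = K * (n * (n + 1)) := by
  rw [run_eq hs n _ _ (good_rep n K 0 [] (by simp)), static_rep, ← static_Z true 1 n]; ring

def bal : ℕ → ℕ → BT
  | 0, _ => nil
  | h + 1, lo => node (bal h lo) (lo + (2 ^ h - 1)) (bal h (lo + 2 ^ h))

lemma keys_bal (h lo) : keys (bal h lo) = List.range' lo (2 ^ h - 1) := by
  induction h generalizing lo with
  | zero => simp [bal, keys]
  | succ h ih =>
    have := Nat.one_le_two_pow (n := h)
    obtain ⟨m, hm⟩ : ∃ m, 2 ^ h = m + 1 := ⟨2 ^ h - 1, by omega⟩
    simp only [bal, keys, ih, pow_succ, hm, Nat.add_sub_cancel]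
    rw [show (m + 1) * 2 - 1 = m + (m + 1) by omega, ← List.range'_append_1, List.range'_succ]
    simp [add_assoc]

lemma depth_bal (x h lo) : depth x (bal h lo) ≤ h := by
  induction h generalizing lo with
  | zero => simp [bal, depth]
  | succ h ih =>
    simp only [bal, depth]
    split_ifs
    · exact Nat.succ_le_succ (ih _)
    · exact Nat.succ_le_succ (ih _)
    · omega

lemma static_bal (h lo : ℕ) (σ : List ℕ) : static (bal h lo) σ ≤ σ.length * (h + 1) := by
  induction σ with
  | nil => simp [static]
  | cons x σ ih =>
    have := depth_bal x h lo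
    simp only [static, List.map_cons, List.sum_cons, List.length_cons] at ih ⊢
    nlinarith

lemma length_rep (n K : ℕ) : (rep n K).length = K * n := by
  simp [rep, length_td]

lemma exists_h (c : ℝ) (hc : 0 ≤ c) : ∃ h : ℕ, 2 ≤ h ∧ 2 * (c * (h + 1) ^ 2 + 1) ≤ 2 ^ h := by
  obtain ⟨m, hm⟩ := exists_nat_ge (18 * c + 2)
  have hm2 : (2 : ℝ) ≤ m := by linarith
  have hm3 : 2 ≤ m := by exact_mod_cast hm2
  refine ⟨3 * m, by omega, ?_⟩
  have h1 : (m : ℝ) ≤ 2 ^ m := by exact_mod_cast (Nat.lt_two_pow_self (n := m)).le
  have h2 : (m : ℝ) ^ 3 ≤ (2 ^ m) ^ 3 := pow_le_pow_left₀ (by linarith) h1 3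
  have h4 : ((m : ℝ) + 1) ≤ 2 ^ m := by exact_mod_cast (Nat.lt_two_pow_self (n := m))
  have h5 : ((m : ℝ) + 1) ^ 3 ≤ (2 ^ m) ^ 3 := pow_le_pow_left₀ (by linarith) h4 3
  rw [mul_comm 3 m, pow_mul]
  push_cast
  have h6 : c * (m * 3 + 1) ^ 2 ≤ c * (9 * (m + 1) ^ 2) :=
    mul_le_mul_of_nonneg_left (by nlinarith) hc
  have h7 : (18 * c + 2) * ((m : ℝ) + 1) ^ 2 ≤ (m + 1) * (m + 1) ^ 2 :=
    mul_le_mul_of_nonneg_right (by linarith) (by positivity)
  nlinarith

lemma depth_le (x : ℕ) (T : BT) : depth x T ≤ (keys T).length := by
  induction T with
  | nil => simp [depth]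
  | node l a r ihl ihr =>
    simp only [depth, keys, List.length_append, List.length_cons]
    split_ifs <;> omega

end Pool.Agent.H.MP_037a8f_lc
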